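import Pool.Agent.Helper15.UL.GoalsE

/-!
# MP_57a173_lc: packet REP

Countably many truth values are represented by locally constant functions.
-/

noncomputable section

namespace UL.PkREP

open Pool.Agent.Helper97.Ku NU MeasureTheory UL

/-- Membership in a cone with finite support is locally constant. -/
theorem lc_mem {I : Type} {τ : I → Str} (hf : (Sp τ).Finite) :
    LC Set.univ (fun z : Pt I => z ∈ B τ) := by
  classical
  refine ⟨Sp τ, Set.subset_univ _, hf.countable, fun z => ?_⟩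
  refine ⟨hf.toFinset, by simp, hf.toFinset.sup (fun ξ => (τ ξ).length), ?_⟩
  have key : ∀ z z' : Pt I, (∀ ξ ∈ hf.toFinset, ∀ i,
      i < hf.toFinset.sup (fun ξ => (τ ξ).length) → z' ξ i = z ξ i) → z ∈ B τ → z' ∈ B τ := by
    intro z z' h hz ξ
    by_cases hξ : ξ ∈ Sp τ
    · intro i hi
      have h1 := h ξ (by simpa using hξ) i (lt_of_lt_of_le hi
        (Finset.le_sup (f := fun ξ => (τ ξ).length) (by simpa using hξ)))
      rw [h1]
      exact hz ξ i hi
    · have : τ ξ = [] := by simpa [Sp] using hξ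
      rw [this]
      exact pre_nil _
  intro z' h
  exact propext ⟨key z' z fun ξ hξ i hi => (h ξ hξ i hi).symm, key z z' h⟩

/-- The first index with a locally constant property is locally constant. -/
theorem lc_find {I : Type} {D : Set I} {P : ℕ → Pt I → Prop} (hP : ∀ l, LC D (P l))
    (N : Pt I → ℕ) (hN : ∀ z, P (N z) z)
    (hN' : ∀ z l, l < N z → ¬ P l z) : LC D N := by
  classical
  choose A hA hc h using hP
  refine ⟨⋃ l, A l, Set.iUnion_subset hA, Set.countable_iUnion hc, fun z => ?_⟩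
  choose F hF n hn using fun l => h l z
  refine ⟨(Finset.range (N z + 1)).biUnion F, ?_, (Finset.range (N z + 1)).sup n, ?_⟩
  · intro ξ hξ
    have hξ' : ξ ∈ (Finset.range (N z + 1)).biUnion F := hξ
    rw [Finset.mem_biUnion] at hξ'
    obtain ⟨l, -, hl⟩ := hξ'
    exact Set.mem_iUnion.2 ⟨l, hF l hl⟩
  · intro z' hz'
    have key : ∀ l, l ≤ N z → (P l z' ↔ P l z) := by
      intro l hl
      have hl' : l ∈ Finset.range (N z + 1) := Finset.mem_range.2 (by omega)
      have := hn l z' fun ξ hξ i hi => hz' ξ (Finset.mem_biUnion.2 ⟨l, hl', hξ⟩) i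
        (lt_of_lt_of_le hi (Finset.le_sup (f := n) hl'))
      exact iff_of_eq this
    have h1 : P (N z) z' := (key _ le_rfl).2 (hN z)
    rcases lt_trichotomy (N z') (N z) with h2 | h2 | h2
    · exact absurd ((key _ h2.le).1 (hN z')) (hN' z _ h2)
    · exact h2
    · exact absurd h1 (hN' z' _ h2)

/-- Forcing locally along a cover. -/
theorem fc_cover {I : Type} [LinearOrder I] {F χ' : Pt I → Pt I} (hF : IsM F) (hχ' : IsM χ')
    {a : BA I} (τ : ℕ → I → Str) (hτ : ∀ l, (Sp (τ l)).Finite)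
    (h : ∀ z, ∃ l, χ' z ∈ B (τ l) ∧ Fc (F ∘ J (τ l)) a) : Fc (F ∘ χ') a := by
  refine Fc.loc (hF.comp hχ') ?_
  obtain ⟨A, hA, h'⟩ := hχ'.fact
  refine ⟨A ∪ ⋃ l, Sp (τ l), Set.subset_univ _,
    hA.union (Set.countable_iUnion fun l => (hτ l).countable), fun z => ?_⟩
  obtain ⟨l, hl, hl'⟩ := h z
  obtain ⟨ρ, g, h1, h2, h3, h4, h5⟩ := h' (τ l) z (hτ l) hl
  refine ⟨ρ, h1, fun ξ hξ => ?_, h3, ?_⟩
  · rcases (h2 ξ hξ).1 with h6 | h6
    · exact Or.inl h6
    · exact Or.inr (Set.mem_iUnion.2 ⟨l, h6⟩)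
  · have e : (F ∘ χ') ∘ J ρ = (F ∘ J (τ l)) ∘ g := by
      rw [Function.comp_assoc, h5]
      rfl
    change Fc ((F ∘ χ') ∘ J ρ) a
    rw [e]
    exact hl'.comp h4

theorem thm : UL.G_REP := by
  classical
  intro I _ _ hHF κ _ v ω hω
  rcases isEmpty_or_nonempty κ with hκ | hκ
  · exact ⟨id, IsM.id', fun _ _ => true, fun k => isEmptyElim k, fun k => isEmptyElim k⟩
  obtain ⟨e, he⟩ := exists_surjective_nat κ
  obtain ⟨χ, hχ, -, hcov⟩ := hHF Set.univ (fun _ => 0) isLowerSet_univ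
    (by simp [Fin0]) (fun _ _ => rfl)
    (fun i g => Fc (ω ∘ g) (v (e i)) ∨ Fc (ω ∘ g) (v (e i))ᶜ)
    (fun i f hf => by
      obtain ⟨g, hg, h⟩ := Fc.decide (hω.comp hf.1) (v (e i))
      exact ⟨g, MD_univ.2 hg, h⟩)
    (fun i f g _ h hg => by
      rcases h with h | h
      · exact Or.inl (h.comp hg.1)
      · exact Or.inr (h.comp hg.1))
  choose s hs using he
  have hen := fun k => (hcov (s k)).enum
  choose τ h1 h2 using hen
  let N : κ → Pt I → ℕ := fun k z => Nat.find (h2 k z)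
  have hN : ∀ k z, z ∈ B (τ k (N k z)) := fun k z => Nat.find_spec (h2 k z)
  have hN' : ∀ k z l, l < N k z → z ∉ B (τ k l) := fun k z l hl => Nat.find_min (h2 k z) hl
  refine ⟨χ, hχ.1, fun z k => decide (Fc (ω ∘ χ ∘ J (τ k (N k z))) (v k)), fun k => ?_,
    fun k => ?_⟩
  · have := lc_find (fun l => lc_mem (h1 k l).1) (N k) (hN k) (hN' k)
    exact this.map fun l => decide (Fc (ω ∘ χ ∘ J (τ k l)) (v k))
  · intro χ' hχ'
    have h3 : ∀ l, Fc (ω ∘ χ ∘ J (τ k l)) (v k) ∨ Fc (ω ∘ χ ∘ J (τ k l)) (v k)ᶜ := by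
      intro l
      have := (h1 k l).2.2
      rwa [hs k] at this
    constructor
    · intro h
      refine fc_cover (hω.comp hχ.1) hχ' (τ k) (fun l => (h1 k l).1) fun z =>
        ⟨N k (χ' z), hN k _, ?_⟩
      have h4 : Fc (ω ∘ χ ∘ J (τ k (N k (χ' z)))) (v k) := by
        have := h z
        simpa using this
      exact h4
    · intro h
      refine fc_cover (hω.comp hχ.1) hχ' (τ k) (fun l => (h1 k l).1) fun z =>
        ⟨N k (χ' z), hN k _, ?_⟩
      have h4 : ¬ Fc (ω ∘ χ ∘ J (τ k (N k (χ' z)))) (v k) := by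
        have := h z
        simpa using this
      rcases h3 (N k (χ' z)) with h5 | h5
      · exact absurd h5 h4
      · exact h5

end UL.PkREP
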