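import Pool.Agent.Helper15.UL.GoalsA
import Pool.Agent.Helper15.UL.Basic4

/-! Packet RES: the fusion principle for lower sets. -/

noncomputable section

namespace UL.PkRES

open UL

theorem thm : UL.G_RES := by
  classical
  intro I _ D q hD hFP Q hdns hopn
  have hd' : Dns Set.univ (fun f : Pt I → Pt I => Q (UL.lo D f)) := by
    intro f hf
    obtain ⟨g, hg, hgQ⟩ := hdns _ (hf.1.lo D)
    refine ⟨g, hg.mono (Set.subset_univ _), ?_⟩
    show Q (UL.lo D (f ∘ g))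
    rw [lo_comp hf.1 hD, hg.lo_eq]
    exact hgQ
  have ho' : Opn Set.univ (fun f : Pt I → Pt I => Q (UL.lo D f)) := by
    intro f g hf hQ hg
    show Q (UL.lo D (f ∘ g))
    rw [lo_comp hf.1 hD]
    exact hopn _ _ (hf.1.lo D) hQ (hg.1.lo D)
  obtain ⟨f, hf, hp, A, -, hAc, hA⟩ := hFP _ hd' ho'
  refine ⟨UL.lo D f, hf.1.lo D, hp.lo D, A ∩ D, Set.inter_subset_right,
    hAc.mono Set.inter_subset_left, fun z => ?_⟩
  obtain ⟨τ, h1, h2, h3, h4⟩ := hA z
  have hsub : ∀ ξ, ξ ∈ Sp (fun ξ => if ξ ∈ D then τ ξ else []) → ξ ∈ Sp τ ∧ ξ ∈ D := by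
    intro ξ hξ
    by_cases h : ξ ∈ D
    · refine ⟨?_, h⟩
      have h5 : (if ξ ∈ D then τ ξ else []) ≠ [] := hξ
      rw [if_pos h] at h5
      exact h5
    · exact absurd (by show (if ξ ∈ D then τ ξ else []) = []; rw [if_neg h]) hξ
  refine ⟨fun ξ => if ξ ∈ D then τ ξ else [], h1.subset fun ξ hξ => (hsub ξ hξ).1,
    fun ξ hξ => ⟨h2 (hsub ξ hξ).1, (hsub ξ hξ).2⟩, ?_, ?_⟩
  · intro ξ
    show Pre (if ξ ∈ D then τ ξ else []) (z ξ)
    by_cases h : ξ ∈ D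
    · rw [if_pos h]; exact h3 ξ
    · rw [if_neg h]; exact pre_nil _
  · have h5 : UL.lo D (f ∘ J τ) = UL.lo D f ∘ J (fun ξ => if ξ ∈ D then τ ξ else []) := by
      rw [lo_comp hf.1 hD]
      congr 1
      funext z ξ
      rw [J_apply]
      by_cases h : ξ ∈ D
      · rw [lo_in h, if_pos h, J_apply]
      · rw [lo_out h, if_neg h, catY_nil]
    rw [← h5]
    exact h4

end UL.PkRES
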